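import Pool.Agent.TH942.MN.Crit
import Pool.Agent.TH942.MN.SmoothAverage

/-!
# Weighted Nagao sums: an equivalent of the rank form of the conjecture with the Riemann hypothesis

Let `C : y² = x³ + a x + b` be an elliptic curve over `ℚ`, `a, b ∈ ℤ`, let `N_p` be the number of affine
points modulo a prime `p ∤ 2Δ` and `a_p = p - N_p`. The sums of Mestre and Nagao,
`(log X)⁻¹ ∑_{p ≤ X} a_p (log p) / p`, are expected to tend to `1/2 - rank`. Kim and Murty (2023) proved that
the existence of the limit implies the Riemann hypothesis for `C`, and that the limit is then `1/2 - ord`; whether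
the rank form and the Riemann hypothesis imply that the limit exists is not known. It is shown that the
following are EQUIVALENT:

* the order of vanishing of the `L`-function at `1` is the rank, and the `L`-function has no zeros with
  `Re s > 1` (by the functional equation this is the Riemann hypothesis for `C`);
* the Riesz means of every order `k > 0`,
  `(log X)⁻¹ ∑_{p ≤ X} (1 - log p / log X)^k a_p (log p) / p`, tend to `(1/2 - rank) / (k + 1)`;
* the same for ONE `k > 0`;
* `∑_p φ(log p / log X) a_p / p` tends to `(1/2 - rank) ∫ φ(u) du/u` for every twice continuously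
  differentiable function `φ` with compact support and `φ(0) = 0`;
* the same for ONE bounded measurable function `w` (in place of `φ`) which vanishes outside an interval
  `[α, β]`, `α > 0`, and has `∫ w(u) du/u ≠ 0`.

Proof. `∑_p (log ((N_p + 1)/p) + a_p / p)` over `p ≤ X` is `(1/2) log log X + κ + o(1)` by the theorem of Rankin
and Selberg and a Tauberian theorem, so every weighted sum of this kind has the expected limit. For the sums of
`log ((N_p + 1)/p)` the rank form and the Riemann hypothesis give, by the method of Riesz means (a bound for the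
mean of `|log L(C, 1 + x + it)|` by Poisson's formula and the theorem of Borel and Carathéodory),
`∑ (1 - log p / log X)^k log ((N_p + 1)/p) = m log log X + κ_k + o(1)` for every `k > 0`, with
`κ_k - κ_{k+1} = m (ψ(k + 2) - ψ(k + 1)) = m / (k + 1)`, and a smooth `φ` is a superposition of Riesz
means of order one. Conversely, a limit for one weight excludes zeros with `Re s > 1` (the Laplace transform of the
sums in `T = log X` would continue beyond the outermost zero on a ray; a weight `w` is first averaged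
multiplicatively to a smooth one with the same integral), and then the limit is known from the first part.
-/

set_option autoImplicit false

namespace Pool.Agent.Results.MP_32c55d_nt.MestreNagao

open Pool.Agent.W263.BSD Filter Topology Classical MeasureTheory
open CongruenceSubgroup UpperHalfPlane
open scoped MatrixGroups

/-- The rank of the group of rational points of `y² = x³ + a x + b`. -/
noncomputable def rank (a b : ℤ) : ℕ :=
  Module.finrank ℤ
    (WeierstrassCurve.Affine.Point
      (WeierstrassCurve.toAffine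
        ({ a₁ := 0, a₂ := 0, a₃ := 0, a₄ := (a : ℚ), a₆ := (b : ℚ) } : WeierstrassCurve ℚ)))

/-- `a_p = p - N_p`. -/
noncomputable def ap (a b : ℤ) (p : ℕ) : ℝ := (p : ℝ) - pointCount a b p

/-- The Riesz mean of order `k` of the sum of Nagao: the sum over the primes `p ≤ X`, `p ∤ 2Δ`, of
`(1 - log p / log X)^k a_p (log p) / p`, divided by `log X`. -/
noncomputable def nagaoMean (a b : ℤ) (k X : ℝ) : ℝ :=
  (∑ p ∈ (Finset.range (⌊X⌋₊ + 1)).filter (GoodPrime a b),
    (1 - Real.log p / Real.log X) ^ k * (ap a b p * Real.log p / p)) / Real.log X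

/-- The sum over all primes `p ∤ 2Δ` of `w(log p / log X) a_p / p`. -/
noncomputable def weightedSum (a b : ℤ) (w : ℝ → ℝ) (X : ℝ) : ℝ :=
  ∑' p : ℕ, if GoodPrime a b p then w (Real.log p / Real.log X) * (ap a b p / p) else 0

/-- The `n`-th Fourier coefficient of `f`. -/
noncomputable def coef {N : ℕ} (f : CuspForm (Gamma0 N : Subgroup (GL (Fin 2) ℝ)) 2) (n : ℕ) : ℂ :=
  (qExpansion 1 f).coeff n

/-- `f ∈ S_2(Γ₀(N))` is the newform of the elliptic curve `E : y² = x³ + a x + b` of conductor `N`: the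
Fourier coefficients `c(n)` of `f` are real with `c(1) = 1`, they satisfy the Hecke relations
`c(mn) = c(m) c(n)` for coprime `m`, `n` and `c(p^(j+2)) = c(p) c(p^(j+1)) - p c(p^j)` (without the last
term if `p ∣ N`), `c(p) = a_p = p - N_p` (`N_p` affine points) for all primes `p ∤ 2Δ`, `|c(p)| ≤ 2 √p` for
all `p ∤ N` (Hasse) and `c(p) = 0, 1, -1` for `p ∣ N`. -/
structure IsNewformOf (a b : ℤ) (N : ℕ) (f : CuspForm (Gamma0 N : Subgroup (GL (Fin 2) ℝ)) 2) :
    Prop where
  one : coef f 1 = 1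
  real : ∀ n, (coef f n).im = 0
  mul : ∀ m n : ℕ, Nat.Coprime m n → coef f (m * n) = coef f m * coef f n
  pow : ∀ p j : ℕ, p.Prime → coef f (p ^ (j + 2)) = coef f p * coef f (p ^ (j + 1)) -
      (if p ∣ N then 0 else (p : ℂ) * coef f (p ^ j))
  points : ∀ p : ℕ, GoodPrime a b p → coef f p = (p : ℂ) - (pointCount a b p : ℂ)
  good : ∀ p : ℕ, p.Prime → ¬ p ∣ N → ‖coef f p‖ ≤ 2 * Real.sqrt p
  bad : ∀ p : ℕ, p.Prime → p ∣ N → coef f p = 0 ∨ coef f p = 1 ∨ coef f p = -1

variable {a b : ℤ} {F : ℂ → ℂ}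

theorem hecke {N : ℕ} {f : CuspForm (Gamma0 N : Subgroup (GL (Fin 2) ℝ)) 2}
    (hf : IsNewformOf a b N f) : Pool.Agent.TH941.Hecke f where
  one := hf.one
  real := hf.real
  mul := hf.mul
  pow := hf.pow
  good := hf.good
  bad := fun p hp h => by
    rcases hf.bad p hp h with h1 | h1 | h1
    · have h2 : ‖coef f p‖ ≤ 1 := by rw [h1]; simp
      exact h2
    · have h2 : ‖coef f p‖ ≤ 1 := by rw [h1]; simp
      exact h2
    · have h2 : ‖coef f p‖ ≤ 1 := by rw [h1]; simp
      exact h2

theorem rs {N : ℕ} [NeZero N] {f : CuspForm (Gamma0 N : Subgroup (GL (Fin 2) ℝ)) 2}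
    (hΔ : 4 * a ^ 3 + 27 * b ^ 2 ≠ 0) (hf : IsNewformOf a b N f) :
    Tendsto (Pool.Agent.W263.BSD.rsSum a b) atTop (𝓝 0) :=
  (hecke hf).rsSum_tendsto hΔ fun p hp => hf.points p hp

theorem belongs {N : ℕ} {f : CuspForm (Gamma0 N : Subgroup (GL (Fin 2) ℝ)) 2}
    (hf : IsNewformOf a b N f) : Pool.Agent.TH941.Belongs a b f := fun p hp => hf.points p hp

theorem weighted_eq (w : ℝ → ℝ) (X : ℝ) :
    weightedSum a b w X = TH942.LS.S TH942.LS.lm (TH942.MN.tE a b) w (Real.log X) := by
  unfold weightedSum TH942.LS.S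
  refine tsum_congr fun p => ?_
  unfold TH942.MN.tE
  by_cases hp : GoodPrime a b p
  · rw [if_pos hp, if_pos hp, TH942.LS.lm_eq hp.1.two_le, mul_comm]
    rfl
  · rw [if_neg hp, if_neg hp, zero_mul]

theorem nagao_eq (k : ℝ) {X : ℝ} (hX : 1 < X) :
    nagaoMean a b k X = TH942.LS.S TH942.LS.lm (TH942.MN.tE a b) (TH942.MN.nk k) (Real.log X) := by
  have hT : 0 < Real.log X := Real.log_pos hX
  unfold nagaoMean TH942.LS.S
  have hz : ∀ p ∉ (Finset.range (⌊X⌋₊ + 1)).filter (GoodPrime a b),
      TH942.MN.tE a b p * TH942.MN.nk k (TH942.LS.lm p / Real.log X) = 0 := by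
    intro p hp
    by_cases hg : GoodPrime a b p
    · have h1 : p ∉ Finset.range (⌊X⌋₊ + 1) := fun h => hp (Finset.mem_filter.2 ⟨h, hg⟩)
      rw [Finset.mem_range, not_lt] at h1
      have h2 : ⌊X⌋₊ < p := h1
      have h3 : X < p := (Nat.floor_lt (by linarith)).1 h2
      have h4 : Real.log X < Real.log p := Real.log_lt_log (by linarith) h3
      rw [TH942.MN.nk_gt k, mul_zero]
      rw [one_lt_div hT, TH942.LS.lm_eq hg.1.two_le]
      exact h4
    · rw [TH942.MN.tE_zero hg, zero_mul]
  rw [tsum_eq_sum hz, Finset.sum_div]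
  refine Finset.sum_congr rfl fun p hp => ?_
  obtain ⟨h1, h2⟩ := Finset.mem_filter.1 hp
  have hp1 : (1 : ℝ) < p := by exact_mod_cast h2.1.one_lt
  have h3 : (p : ℝ) ≤ X := by
    rw [Finset.mem_range, Nat.lt_succ_iff] at h1
    exact (Nat.le_floor_iff (by linarith)).1 h1
  have h4 : Real.log p / Real.log X ≤ 1 := by
    rw [div_le_one hT]
    exact Real.log_le_log (by linarith) h3
  have h5 : 0 < Real.log p / Real.log X := div_pos (Real.log_pos hp1) hT
  unfold TH942.MN.tE TH942.MN.nk ap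
  rw [if_pos h2, TH942.LS.lm_eq h2.1.two_le,
    Set.indicator_of_mem (show Real.log p / Real.log X ∈ Set.Ioc (0 : ℝ) 1 from ⟨h5, h4⟩)]
  ring

/-- a limit in `X` is a limit in `T = log X` -/
theorem tendsto_log_iff {g h : ℝ → ℝ} {ℓ : ℝ} (he : ∀ X : ℝ, 1 < X → g X = h (Real.log X)) :
    Tendsto g atTop (𝓝 ℓ) ↔ Tendsto h atTop (𝓝 ℓ) := by
  constructor
  · intro h1
    have h2 := h1.comp Real.tendsto_exp_atTop
    refine h2.congr' ?_
    filter_upwards [eventually_gt_atTop 0] with T hT
    rw [Function.comp_apply, he _ (Real.one_lt_exp_iff.2 hT), Real.log_exp]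
  · intro h1
    have h2 := h1.comp Real.tendsto_log_atTop
    refine h2.congr' ?_
    filter_upwards [eventually_gt_atTop 1] with X hX
    rw [Function.comp_apply, he X hX]

/-- a smooth weight with a nonzero integral -/
theorem exists_bump : ∃ φ : ℝ → ℝ, ContDiff ℝ 2 φ ∧ HasCompactSupport φ ∧ φ 0 = 0 ∧
    (∀ u, φ u ≠ 0 → 1 ≤ u ∧ u ≤ 3) ∧ (∃ W : ℝ, ∀ u, |φ u| ≤ W) ∧
    (∫ u in Set.Ioi (0 : ℝ), φ u / u) ≠ 0 := by
  set g : ContDiffBump (2 : ℝ) := ⟨1 / 2, 1, by norm_num, by norm_num⟩ with hg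
  have hsupp : ∀ u : ℝ, g u ≠ 0 → 1 < u ∧ u < 3 := by
    intro u hu
    have h1 : u ∈ Function.support g := hu
    rw [g.support_eq, Metric.mem_ball, Real.dist_eq, abs_lt] at h1
    have h2 : g.rOut = 1 := rfl
    rw [h2] at h1
    exact ⟨by linarith [h1.1], by linarith [h1.2]⟩
  have h0 : g 0 = 0 := by
    by_contra h
    linarith [(hsupp 0 h).1]
  have hone : ∀ u : ℝ, 3 / 2 ≤ u → u ≤ 5 / 2 → g u = 1 := by
    intro u h1 h2
    refine g.one_of_mem_closedBall ?_
    rw [Metric.mem_closedBall, Real.dist_eq, abs_le]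
    have h3 : g.rIn = 1 / 2 := rfl
    rw [h3]
    exact ⟨by linarith, by linarith⟩
  refine ⟨g, g.contDiff, g.hasCompactSupport, h0,
    fun u hu => ⟨(hsupp u hu).1.le, (hsupp u hu).2.le⟩,
    ⟨1, fun u => by rw [abs_of_nonneg g.nonneg]; exact g.le_one⟩, ?_⟩
  have hint : Integrable (fun u : ℝ => g u / u) (volume.restrict (Set.Ioi 0)) := by
    refine Integrable.mono' (g := fun u => g u) (g.continuous.integrable_of_hasCompactSupport
      g.hasCompactSupport).integrableOn
      (g.continuous.measurable.div measurable_id).aestronglyMeasurable ?_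
    refine Filter.Eventually.of_forall fun u => ?_
    by_cases hu : g u = 0
    · rw [hu]; simp
    · have h1 := hsupp u hu
      rw [Real.norm_eq_abs, abs_div, abs_of_nonneg g.nonneg, abs_of_pos (by linarith)]
      exact div_le_self g.nonneg h1.1.le
  refine ne_of_gt ?_
  rw [setIntegral_pos_iff_support_of_nonneg_ae ?_ hint]
  · refine lt_of_lt_of_le ?_ (measure_mono (show Set.Icc (3 / 2 : ℝ) (5 / 2) ⊆ _ from ?_))
    · rw [Real.volume_Icc]
      norm_num
    · intro u hu
      have h1 : 0 < u := by linarith [hu.1]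
      refine ⟨?_, h1⟩
      rw [Function.mem_support, hone u hu.1 hu.2]
      positivity
  · filter_upwards [ae_restrict_mem measurableSet_Ioi] with u hu
    exact div_nonneg g.nonneg (le_of_lt hu)

/-- **The rank form together with the Riemann hypothesis is equivalent to the limits of the weighted
Nagao sums.** -/
theorem result (a b : ℤ) (hΔ : 4 * a ^ 3 + 27 * b ^ 2 ≠ 0) (F : ℂ → ℂ) (hF : IsLSeries a b F)
    (N : ℕ) [NeZero N] (f : CuspForm (Gamma0 N : Subgroup (GL (Fin 2) ℝ)) 2)
    (hf : IsNewformOf a b N f) : List.TFAE [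
      analyticOrderAt F 1 = rank a b ∧ ∀ s : ℂ, 1 < s.re → F s ≠ 0,
      ∀ k : ℝ, 0 < k → Tendsto (nagaoMean a b k) atTop (𝓝 ((1 / 2 - rank a b) / (k + 1))),
      ∃ k : ℝ, 0 < k ∧ Tendsto (nagaoMean a b k) atTop (𝓝 ((1 / 2 - rank a b) / (k + 1))),
      ∀ φ : ℝ → ℝ, ContDiff ℝ 2 φ → HasCompactSupport φ → φ 0 = 0 →
        Tendsto (weightedSum a b φ) atTop
          (𝓝 ((1 / 2 - rank a b) * ∫ u in Set.Ioi (0 : ℝ), φ u / u)),
      ∃ (α β : ℝ) (w : ℝ → ℝ), 0 < α ∧ Measurable w ∧ (∃ W : ℝ, ∀ u : ℝ, |w u| ≤ W) ∧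
        (∀ u : ℝ, w u ≠ 0 → α ≤ u ∧ u ≤ β) ∧ (∫ u in Set.Ioi (0 : ℝ), w u / u) ≠ 0 ∧
        Tendsto (weightedSum a b w) atTop
          (𝓝 ((1 / 2 - rank a b) * ∫ u in Set.Ioi (0 : ℝ), w u / u))] := by
  have hrs := rs hΔ hf
  have hh := hecke hf
  have hb := belongs hf
  obtain ⟨m, hm⟩ := Pool.Agent.W189.ML.order_finite_all hF 1
  have hmr : analyticOrderAt F 1 = rank a b → m = rank a b := fun h => by
    rw [hm] at h
    exact_mod_cast h
  tfae_have 1 → 2 := by
    rintro ⟨h1, h2⟩ k hk
    rw [tendsto_log_iff fun X hX => nagao_eq k hX, ← hmr h1]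
    exact TH942.MN.tE_nk hΔ hF hh hb hm h2 hrs hk
  tfae_have 1 → 4 := by
    rintro ⟨h1, h2⟩ φ h3 h4 h5
    rw [tendsto_log_iff fun X _ => weighted_eq φ X, ← hmr h1]
    exact TH942.MN.tE_smooth hΔ hF hh hb hm h2 hrs h3 h4 h5
  tfae_have 2 → 3 := fun h => ⟨1, one_pos, h 1 one_pos⟩
  tfae_have 3 → 1 := by
    rintro ⟨k, hk, h⟩
    rw [tendsto_log_iff fun X hX => nagao_eq k hX] at h
    have h1 := TH942.MN.crit_nk hΔ hF hh hb hk h
    have h2 := tendsto_nhds_unique h (TH942.MN.tE_nk hΔ hF hh hb hm h1 hrs hk)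
    have h3 : (k + 1) ≠ 0 := by linarith
    have h4 : (rank a b : ℝ) = m := by
      rw [div_left_inj' h3] at h2
      linarith
    refine ⟨?_, h1⟩
    rw [hm]
    exact_mod_cast h4.symm
  tfae_have 4 → 5 := by
    intro h
    obtain ⟨φ, h1, h2, h3, h4, h5, h6⟩ := exists_bump
    exact ⟨1, 3, φ, one_pos, h1.continuous.measurable, h5, h4, h6, h φ h1 h2 h3⟩
  tfae_have 5 → 1 := by
    rintro ⟨α, β, w, hα, hw, ⟨W, hW⟩, hs, hi, h⟩
    rw [tendsto_log_iff fun X _ => weighted_eq w X] at h
    have hαβ : α < β := by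
      by_contra hab
      push Not at hab
      apply hi
      have h1 : (fun u : ℝ => w u / u) =ᵐ[volume.restrict (Set.Ioi (0 : ℝ))] fun _ => 0 := by
        refine ae_restrict_of_ae ?_
        have h2 : ∀ᵐ u : ℝ, u ∉ ({α} : Set ℝ) :=
          measure_eq_zero_iff_ae_notMem.1 (measure_singleton α)
        filter_upwards [h2] with u hu
        by_contra h3
        have h4 : w u ≠ 0 := fun h5 => h3 (by rw [h5, zero_div])
        obtain ⟨h5, h6⟩ := hs u h4
        exact hu (by rw [Set.mem_singleton_iff]; linarith)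
      rw [integral_congr_ae h1, integral_zero]
    obtain ⟨φ, h1, h2, h3, h4, h5⟩ := TH942.MN.smooth_average TH942.MN.lm_pos' TH942.MN.lm_ge'
      (σ := 2) (by norm_num) (TH942.MN.tE_sum hh hb) hα hαβ hw hW hs h
    have hne : ∃ u, 0 < u ∧ φ u ≠ 0 := by
      by_contra hne
      push Not at hne
      apply hi
      rw [← h4]
      rw [setIntegral_congr_fun (g := fun _ => (0 : ℝ)) measurableSet_Ioi
        fun u hu => by rw [hne u hu, zero_div], integral_zero]
    have h6 := TH942.MN.crit_smooth hΔ hF hh hb h1 h2 h3 hne h5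
    have h7 := tendsto_nhds_unique h5 (TH942.MN.tE_smooth hΔ hF hh hb hm h6 hrs h1 h2 h3)
    rw [h4] at h7
    have h8 := mul_right_cancel₀ hi h7
    have h9 : (rank a b : ℝ) = m := by linarith
    refine ⟨?_, h6⟩
    rw [hm]
    exact_mod_cast h9.symm
  tfae_finish

end Pool.Agent.Results.MP_32c55d_nt.MestreNagao
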